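import Pool.Agent.Helper88.TA.Goals
import Pool.Agent.Helper85.RR.S1
import Pool.Agent.Helper49.GM.TS
import Pool.Agent.Helper31.GM.GL
import Pool.Agent.Helper31.RR.CB
import Pool.Agent.Helper24.PP.MA

/-!
# MP_69be96_nt, project TA, packet V4: the fourth moment of the weight
-/

set_option autoImplicit false

open Finset Filter Topology

open scoped Classical

namespace Pool.Agent.Helper49.TA

open Pool.Agent.Helper88.PP (pr Rg om Sf SS uu vv ee LA VV QQ cost nc dd)
open Pool.Agent.Helper88.RR (gg ab TB WB nz wb DB Db VM GB)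
open Pool.Agent.Helper88.GM (NI XI In Sr gB)
open Pool.Agent.Helper88.TA
open Pool.Agent.Helper85.RR (ab_nonneg mem_TB card_TB prod_TB WB_eq)
open Pool.Agent.Helper3.PP (om_nonneg mem_SS mem_LA LA_sub)
open Pool.Agent.Helper49.GM (XI_nonneg tlc Sr_x Sr_y)
open Pool.Agent.Helper24.PP (prod_al upper)
open Pool.Agent.Helper31.Tot (ax_bound ax_sub)

/-- the sum of `16^ω(s)/s` over the squarefree rough numbers -/
theorem sixteen : ∃ C : ℝ, 1 ≤ C ∧ ∀ z m : ℕ, 2 ≤ z → 1 ≤ m →
    ∑ s ∈ SS z (z ^ m), (16 : ℝ) ^ s.primeFactors.card / s ≤ (C * m) ^ 16 := by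
  obtain ⟨C, hC0, hC⟩ := ax_bound
  refine ⟨Real.exp (2 * C), Real.one_le_exp (by linarith), ?_⟩
  intro z m hz hm
  have hz2 : (2 : ℝ) ≤ z := by exact_mod_cast hz
  have hm1 : (1 : ℝ) ≤ m := by exact_mod_cast hm
  have hlz : 0 < Real.log z := Real.log_pos (by linarith)
  have hX : Real.log ((z ^ m : ℕ) : ℝ) = m * Real.log z := by
    push_cast
    rw [Real.log_pow]
  have hzX : z ≤ z ^ m := Nat.le_self_pow (by omega) z
  have hprod : ∏ p ∈ (Ioc z (z ^ m)).filter Nat.Prime, (1 - 1 / (p : ℝ))⁻¹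
      ≤ Real.exp (2 * C) * m := by
    rw [prod_al, ← ax_sub hzX]
    have h1 := abs_le.1 (hC (z ^ m))
    have h2 := abs_le.1 (hC z)
    have h3 : Real.log (Real.log ((z ^ m : ℕ) : ℝ)) = Real.log m + Real.log (Real.log z) := by
      rw [hX, Real.log_mul (by linarith) hlz.ne']
    rw [h3] at h1
    calc Real.exp (_ - _) ≤ Real.exp (2 * C + Real.log m) :=
          Real.exp_le_exp.2 (by linarith [h1.2, h2.1])
      _ = Real.exp (2 * C) * m := by rw [Real.exp_add, Real.exp_log (by linarith)]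
  have hfac : ∀ p ∈ (Ioc z (z ^ m)).filter Nat.Prime, 0 < 1 - 1 / (p : ℝ) ∧ (2 : ℝ) ≤ p := by
    intro p hp
    have hp2 : (2 : ℝ) ≤ p := by exact_mod_cast (mem_filter.1 hp).2.two_le
    refine ⟨?_, hp2⟩
    rw [sub_pos, div_lt_one (by linarith)]
    linarith
  calc ∑ s ∈ SS z (z ^ m), (16 : ℝ) ^ s.primeFactors.card / s
      = ∑ s ∈ SS z (z ^ m), ∏ p ∈ s.primeFactors, (16 / (p : ℝ)) := by
        refine Finset.sum_congr rfl fun s hs => ?_
        have hsq : Squarefree s := (mem_filter.1 hs).2.1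
        have h2 : (s : ℝ) = ∏ p ∈ s.primeFactors, (p : ℝ) := by
          conv_lhs => rw [← Nat.prod_primeFactors_of_squarefree hsq]
          push_cast
          rfl
        rw [Finset.prod_div_distrib, Finset.prod_const, ← h2]
    _ ≤ ∏ p ∈ (Ioc z (z ^ m)).filter Nat.Prime, (1 + 16 / (p : ℝ)) :=
        upper _ (fun p => by positivity) z _
    _ ≤ ∏ p ∈ (Ioc z (z ^ m)).filter Nat.Prime, ((1 - 1 / (p : ℝ))⁻¹) ^ 16 := by
        refine Finset.prod_le_prod (fun p _ => by positivity) fun p hp => ?_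
        obtain ⟨h1, h2⟩ := hfac p hp
        have hx0 : 0 ≤ 1 / (p : ℝ) := by positivity
        have h3 : 1 + 1 / (p : ℝ) ≤ (1 - 1 / (p : ℝ))⁻¹ := by
          rw [le_inv_comm₀ (by positivity) h1, inv_eq_one_div, le_div_iff₀ (by positivity)]
          nlinarith
        have h4 := one_add_mul_le_pow (a := 1 / (p : ℝ)) (by linarith) 16
        have h5 : 1 + 16 / (p : ℝ) = 1 + ((16 : ℕ) : ℝ) * (1 / (p : ℝ)) := by
          push_cast
          ring
        rw [h5]
        exact h4.trans (pow_le_pow_left₀ (by positivity) h3 16)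
    _ = (∏ p ∈ (Ioc z (z ^ m)).filter Nat.Prime, (1 - 1 / (p : ℝ))⁻¹) ^ 16 := by
        rw [Finset.prod_pow]
    _ ≤ _ := by
        refine pow_le_pow_left₀ (Finset.prod_nonneg fun p hp => ?_) hprod 16
        exact inv_nonneg.2 (hfac p hp).1.le

/-- the numerical bound -/
theorem expo4 (L : ℝ) (hL : 0 ≤ L) : ∃ E1 : ℕ, ∀ E K : ℕ, E1 ≤ E → K ≤ E →
    2 * (1 + L * (E : ℝ) ^ 18) ^ (4 * K) ≤ Real.exp ((E : ℝ) ^ 2 / 2) := by
  have h1 : ∀ᶠ t : ℝ in atTop, ‖Real.log t‖ ≤ 1 / 400 * ‖t‖ :=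
    Real.isLittleO_log_id_atTop.bound (by norm_num)
  have h2 := tendsto_natCast_atTop_atTop (R := ℝ) |>.eventually h1
  obtain ⟨E2, hE2⟩ := eventually_atTop.mp h2
  refine ⟨max E2 (max 4 (⌈1 + L⌉₊)), fun E K hE hK => ?_⟩
  have hE3 : E2 ≤ E := (le_max_left _ _).trans hE
  have hE4 : 4 ≤ E := ((le_max_left _ _).trans (le_max_right _ _)).trans hE
  have hE5 : ⌈1 + L⌉₊ ≤ E := ((le_max_right _ _).trans (le_max_right _ _)).trans hE
  have hL' : 1 + L ≤ E := (Nat.le_ceil _).trans (by exact_mod_cast hE5)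
  have hE4' : (4 : ℝ) ≤ E := by exact_mod_cast hE4
  have hE0 : (0 : ℝ) < E := by linarith
  have hlog : Real.log E ≤ 1 / 400 * E := by
    have := hE2 E hE3
    rw [Real.norm_eq_abs, Real.norm_eq_abs, abs_of_pos hE0] at this
    exact (le_abs_self _).trans this
  have hlog0 : 0 ≤ Real.log E := Real.log_nonneg (by linarith)
  have hpow : (1 : ℝ) ≤ (E : ℝ) ^ 18 := one_le_pow₀ (by linarith)
  have hb : 1 + L * (E : ℝ) ^ 18 ≤ (E : ℝ) ^ 19 := by
    calc 1 + L * (E : ℝ) ^ 18 ≤ (E : ℝ) ^ 18 + L * (E : ℝ) ^ 18 := by linarith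
      _ = (1 + L) * (E : ℝ) ^ 18 := by ring
      _ ≤ E * (E : ℝ) ^ 18 := mul_le_mul_of_nonneg_right hL' (by positivity)
      _ = (E : ℝ) ^ 19 := by ring
  have hK' : (K : ℝ) ≤ E := by exact_mod_cast hK
  calc 2 * (1 + L * (E : ℝ) ^ 18) ^ (4 * K) ≤ 2 * ((E : ℝ) ^ 19) ^ (4 * K) := by
        apply mul_le_mul_of_nonneg_left _ (by norm_num)
        exact pow_le_pow_left₀ (by positivity) hb _
    _ = 2 * Real.exp (76 * K * Real.log E) := by
        rw [← pow_mul]
        congr 1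
        rw [← Real.rpow_natCast, Real.rpow_def_of_pos hE0]
        congr 1
        push_cast
        ring
    _ ≤ Real.exp 1 * Real.exp (76 * E * (1 / 400 * E)) := by
        apply mul_le_mul _ _ (Real.exp_pos _).le (Real.exp_pos _).le
        · have := Real.add_one_le_exp (1 : ℝ)
          linarith
        · apply Real.exp_le_exp.2
          apply mul_le_mul _ hlog hlog0 (by positivity)
          linarith
    _ = Real.exp (1 + 76 * E * (1 / 400 * E)) := by rw [Real.exp_add]
    _ ≤ Real.exp ((E : ℝ) ^ 2 / 2) := by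
        apply Real.exp_le_exp.2
        nlinarith

theorem v4 : StmtFM → Pool.Agent.Helper88.GM.StmtTL → Pool.Agent.Helper88.GM.StmtGW →
    StmtV4 := by
  intro hFM h1 _
  obtain ⟨c, hc, ETL, hTL⟩ := h1
  obtain ⟨C', hC', h16⟩ := sixteen
  obtain ⟨C, hC, hCB⟩ := Pool.Agent.Helper31.RR.cb
  obtain ⟨Ee, hEe⟩ := expo4 (8 * (16 * C ^ 4 * C' ^ 16)) (by positivity)
  refine ⟨max ETL (max Ee 4096), fun E z x y hE hS u v Q b hIn m q hm hqm hV hK t ht P hP hPA
    => ?_⟩
  have hE1 : ETL ≤ E := (le_max_left _ _).trans hE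
  have hE3 : Ee ≤ E := ((le_max_left _ _).trans (le_max_right _ _)).trans hE
  have hE4 : 4096 ≤ E := ((le_max_right _ _).trans (le_max_right _ _)).trans hE
  have hM1 : 1 ≤ E / 16 := by omega
  have hEpos : (4096 : ℝ) ≤ E := by exact_mod_cast hE4
  have hTL := hTL E z x y hE1 hS u v Q b hIn
  set K : ℕ := E / 16 / m + 1 with hKdef
  -- `z`
  have hzE : Real.exp E ≤ z := hS.1
  have hzE' : (E : ℝ) + 1 ≤ z := (Real.add_one_le_exp _).trans hzE
  have hzE2 : E + 1 ≤ z := by exact_mod_cast hzE'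
  have hz3 : 2 ≤ z := by omega
  have hz0 : 1 ≤ z := by omega
  have hzp : (0 : ℝ) < z := by linarith
  -- `y`
  have hy2 := Sr_y hS
  have hK2 : (4 * K) ^ 2 ≤ E := by
    rcases le_total 16 K with h | h
    · calc (4 * K) ^ 2 = 16 * K ^ 2 := by ring
        _ ≤ K * K ^ 2 := Nat.mul_le_mul_right _ h
        _ = K ^ 3 := by ring
        _ ≤ E := hK
    · have h5 : K ^ 2 ≤ 16 ^ 2 := Nat.pow_le_pow_left h 2
      calc (4 * K) ^ 2 = 16 * K ^ 2 := by ring
        _ ≤ 16 * 16 ^ 2 := Nat.mul_le_mul_left _ h5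
        _ ≤ E := by omega
  have hKE : 4 * K ≤ E := by nlinarith
  have hKE' : K ≤ E := by omega
  have hyE : E * E ≤ y := by
    have : ((E * E : ℕ) : ℝ) ≤ y := by
      push_cast
      nlinarith
    exact_mod_cast this
  have hy4 : 4 * (4 * K) ≤ y := by nlinarith
  have hy1 : 1 ≤ y := by nlinarith
  have ho := om_nonneg y z
  have hXI := XI_nonneg u v Q
  have hinj : Function.Injective (fun i : P => (i : ℕ)) := Subtype.val_injective
  have hP1 : P ⊆ Icc 1 z := by
    intro i hi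
    have h3 := Finset.mem_Icc.1 (hP hi)
    exact Finset.mem_Icc.2 ⟨by omega, by omega⟩
  have hgg : ∀ B : Finset P, B.card ≤ 4 * K →
      gB y z (B.image (fun i : P => (i : ℕ))) ≤ (8 * om y z) ^ B.card := by
    intro B hB
    have hcard : (B.image (fun i : P => (i : ℕ))).card = B.card :=
      Finset.card_image_of_injective B hinj
    have h5 := Pool.Agent.Helper31.GM.gu y z (B.image (fun i : P => (i : ℕ))) hy1 (by
        intro i hi
        obtain ⟨j, _, rfl⟩ := Finset.mem_image.mp hi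
        exact hP1 j.2) (by rw [hcard]; omega) (by
        rw [hcard]
        have e1 : (B.card : ℝ) ^ 2 ≤ E := by
          have : B.card ^ 2 ≤ E := (Nat.pow_le_pow_left hB 2).trans hK2
          exact_mod_cast this
        have e2 : 0 ≤ Real.log z := Real.log_nonneg (by linarith)
        calc (B.card : ℝ) ^ 2 * Real.log z ≤ E * Real.log z := mul_le_mul_of_nonneg_right e1 e2
          _ ≤ Real.log x := Sr_x hS
          _ ≤ y := hS.2.2.2.1)
    rw [hcard] at h5
    exact h5.2.2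
  have hMz : E / 16 ≤ z := by omega
  have hCB := hCB m q (E / 16) z hm hz3 hMz hV
  have hLA0 : ∀ r, r ∈ LA z m (q * m) → r ≠ 0 := by
    intro r hr
    have := (mem_SS.mp (LA_sub hz0 hqm hr)).1.1
    omega
  set al : ℕ → ℝ := fun r => if r ∈ LA z m (q * m) then ab m q z r else 0 with hal
  have key := hFM P (fun i => (i : ℕ)) y z (z ^ (E / 16)) (z ^ (E / 4)) K (NI u v Q b)
    (2 * XI u v Q) (8 * om y z) C (TB m q (E / 16) z P)
    (fun r => ∏ i : P, (if r i = 0 then 1 else - ab m q z (r i))) al hz3 (by positivity)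
    (by positivity) hC ?_ ?_ ?_ ?_ ?_ ?_ ?_
  · simp only [WB_eq]
    refine key.trans ?_
    have hX4 : (z ^ (E / 16)) ^ 4 = z ^ (4 * (E / 16)) := by rw [← pow_mul, mul_comm]
    have hMA := h16 z (4 * (E / 16)) hz3 (by omega)
    rw [hX4]
    set S : ℝ := ∑ s ∈ SS z (z ^ (4 * (E / 16))), (16 : ℝ) ^ s.primeFactors.card / s with hSdef
    have hS0 : 0 ≤ S := by positivity
    have hSE : S ≤ (C' * (E : ℝ)) ^ 16 := by
      refine hMA.trans ?_
      apply pow_le_pow_left₀ (by positivity)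
      apply mul_le_mul_of_nonneg_left _ (by linarith)
      have : 4 * (E / 16) ≤ E := by omega
      exact_mod_cast this
    have hin : (Fintype.card P : ℝ) * (8 * om y z * (16 * C ^ 4 * S))
        ≤ 8 * (16 * C ^ 4 * C' ^ 16) * (E : ℝ) ^ 18 := by
      rw [Fintype.card_coe]
      calc (P.card : ℝ) * (8 * om y z * (16 * C ^ 4 * S))
          = (P.card : ℝ) * om y z * (8 * (16 * C ^ 4 * S)) := by ring
        _ ≤ (E : ℝ) ^ 2 * (8 * (16 * C ^ 4 * (C' * (E : ℝ)) ^ 16)) := by
            apply mul_le_mul hPA _ (by positivity) (by positivity)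
            gcongr
        _ = _ := by ring
    calc 2 * XI u v Q * (1 + (Fintype.card P : ℝ) * (8 * om y z * (16 * C ^ 4 * S))) ^ (4 * K)
        ≤ 2 * XI u v Q * (1 + 8 * (16 * C ^ 4 * C' ^ 16) * (E : ℝ) ^ 18) ^ (4 * K) := by
          apply mul_le_mul_of_nonneg_left _ (by positivity)
          apply pow_le_pow_left₀ (by positivity)
          linarith
      _ = (2 * (1 + 8 * (16 * C ^ 4 * C' ^ 16) * (E : ℝ) ^ 18) ^ (4 * K)) * XI u v Q := by ring
      _ ≤ Real.exp ((E : ℝ) ^ 2 / 2) * XI u v Q :=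
          mul_le_mul_of_nonneg_right (hEe E K hE3 hKE') hXI
  · intro r hr i
    rcases (mem_TB hr).1 i with h5 | h5
    · exact Or.inl h5
    · exact Or.inr (LA_sub hz0 hqm h5)
  · intro r hr
    exact (card_TB hm hz3 hr).trans (Nat.le_succ _)
  · intro r hr
    calc (∏ i, max 1 (r i)) ^ 4 ≤ (z ^ (E / 16)) ^ 4 := Nat.pow_le_pow_left (prod_TB hz3 hr) 4
      _ = z ^ (E / 16 * 4) := by rw [← pow_mul]
      _ ≤ z ^ (E / 4) := Nat.pow_le_pow_right hz0 (by omega)
  · intro r
    rw [hal]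
    simp only
    split_ifs
    · exact ab_nonneg _ _ _ _
    · exact le_rfl
  · intro r hr
    rw [Finset.abs_prod]
    refine le_of_eq (Finset.prod_congr rfl fun i _ => ?_)
    rcases (mem_TB hr).1 i with h5 | h5
    · rw [if_pos h5, if_pos h5, abs_one]
    · rw [if_neg (hLA0 _ h5), if_neg (hLA0 _ h5), abs_neg, abs_of_nonneg (ab_nonneg _ _ _ _), hal]
      simp only
      rw [if_pos h5]
  · intro d hd
    obtain ⟨hc1, _⟩ := hCB d hd
    refine le_of_eq_of_le ?_ hc1
    congr 1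
    rw [hal, ← Finset.sum_filter]
    refine Finset.sum_congr ?_ fun _ _ => rfl
    ext r
    simp only [Finset.mem_filter]
    constructor
    · rintro ⟨⟨_, h7⟩, h8⟩
      exact ⟨h8, h7⟩
    · rintro ⟨h7, h8⟩
      exact ⟨⟨LA_sub hz0 hqm h7, h8⟩, h7⟩
  · intro d hd hD hdK
    have hprod0 : 0 ≤ ∏ i, dd (8 * om y z) (d i) := by
      refine Finset.prod_nonneg fun i _ => ?_
      unfold dd
      split_ifs <;> positivity
    have htl := tlc (y := y) (z := z) (K := 4 * K) (D := z ^ (E / 4)) (P := P) (N := NI u v Q b)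
      (δ := Real.exp (-(c * E))) (Y := XI u v Q) (Real.exp_pos _).le hXI hP1
      (fun B hB hBK d hd hD => hTL B hB ((Nat.pow_le_pow_left hBK 2).trans hK2) d hd hD)
      d hd hD hdK
    by_cases hcop : ∀ i j, i ≠ j → d i ≠ 0 → d j ≠ 0 → Nat.Coprime (d i) (d j)
    · have h5 := htl.1 hcop
      have h6 := (abs_le.1 h5).2
      have h7 := hgg (univ.filter (fun i => d i ≠ 0)) hdK
      have hδ : Real.exp (-(c * E)) ≤ 1 := by
        rw [Real.exp_le_one_iff]
        have : 0 ≤ c * E := by positivity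
        linarith
      have hp1 : 0 ≤ ∏ i, (if d i = 0 then 1 else 1 / (d i : ℝ)) := by
        refine Finset.prod_nonneg fun i _ => ?_
        split_ifs <;> positivity
      have h8 : gB y z ((univ.filter (fun i => d i ≠ 0)).image (fun i : P => (i : ℕ))) *
          ∏ i, (if d i = 0 then 1 else 1 / (d i : ℝ)) ≤ ∏ i, dd (8 * om y z) (d i) := by
        refine (mul_le_mul_of_nonneg_right h7 hp1).trans (le_of_eq ?_)
        rw [← Finset.prod_const, Finset.prod_filter, ← Finset.prod_mul_distrib]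
        refine Finset.prod_congr rfl fun i _ => ?_
        unfold dd
        by_cases hi : d i = 0
        · simp [hi]
        · rw [if_pos hi, if_neg hi, if_neg hi]
          ring
      have h9 := mul_le_mul_of_nonneg_left h8 hXI
      have h10 : Real.exp (-(c * E)) * (XI u v Q * ∏ i, dd (8 * om y z) (d i))
          ≤ XI u v Q * ∏ i, dd (8 * om y z) (d i) := by
        have h11 : 0 ≤ XI u v Q * ∏ i, dd (8 * om y z) (d i) := mul_nonneg hXI hprod0
        nlinarith
      linarith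
    · rw [htl.2 hcop]
      rw [Nat.cast_zero]
      positivity

end Pool.Agent.Helper49.TA
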